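import Mathlib

set_option autoImplicit false

namespace Pool.Agent.H7.Kiss

/-- The scalar heart of the pair lemma. -/
lemma scalar_aux (t s S d e al be : ℝ) (ht : t ^ 2 = 3) (ht0 : 0 < t)
    (hs : 0 ≤ s) (hS : 0 ≤ S)
    (hd : 1 - t / 3 ≤ d) (hd' : d ≤ t / 3) (he' : e ≤ t / 3) (hde : d ≤ e)
    (hbe : s ^ 2 ≤ 2 * be) (hsS : s ≤ 2 * S) (hab : al + be ≤ 2 * S * s)
    (hQ : 4 * (1 - t / 3) ^ 2 ≤
      s ^ 2 + (e - d) ^ 2 + 4 * d * e * S ^ 2 + 2 * e * al + 2 * d * be) :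
    2 - t ≤ S ∧ 2 * (1 - t / 3) ≤ s + 2 * (t / 3) * S := by
  have t1 : 1.732 < t := by nlinarith
  have t2 : t < 1.7321 := by nlinarith
  have hd0 : 0 < d := by linarith
  have he0 : 0 < e := by linarith
  -- step 1
  have h1 : 2 * e * al + 2 * d * be ≤ 4 * e * S * s - (e - d) * s ^ 2 := by
    nlinarith [mul_le_mul_of_nonneg_left hab he0.le,
      mul_le_mul_of_nonneg_left hbe (sub_nonneg.2 hde)]
  -- step 2
  have h2 : (e - d) ^ 2 + 4 * d * e * S ^ 2 + 4 * e * S * s - (e - d) * s ^ 2 ≤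
      (t / 3 - d) ^ 2 + 4 * d * (t / 3) * S ^ 2 + 4 * (t / 3) * S * s - (t / 3 - d) * s ^ 2 := by
    have hb : 0 ≤ (t / 3 + e - 2 * d) + 4 * d * S ^ 2 + 4 * S * s - s ^ 2 := by
      have : s ^ 2 ≤ 2 * S * s := by nlinarith
      have h3 : 0 ≤ 4 * d * S ^ 2 := by positivity
      have h4 : 0 ≤ S * s := mul_nonneg hS hs
      nlinarith
    have := mul_nonneg (sub_nonneg.2 he') hb
    nlinarith
  -- step 3
  have h3 : s ^ 2 + (t / 3 - d) ^ 2 + 4 * d * (t / 3) * S ^ 2 + 4 * (t / 3) * S * s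
      - (t / 3 - d) * s ^ 2 ≤ (s + 2 * (t / 3) * S) ^ 2
      + (t / 3 - d) * ((t / 3 - (1 - t / 3)) - 4 * (t / 3) * S ^ 2 - s ^ 2) := by
    have := mul_nonneg (sub_nonneg.2 hd') (sub_nonneg.2 hd)
    nlinarith
  have h4 : 4 * (1 - t / 3) ^ 2 ≤ (s + 2 * (t / 3) * S) ^ 2
      + (t / 3 - d) * ((t / 3 - (1 - t / 3)) - 4 * (t / 3) * S ^ 2 - s ^ 2) := by linarith
  rcases le_or_gt (t / 3 - (1 - t / 3)) (4 * (t / 3) * S ^ 2 + s ^ 2) with hc | hc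
  · have h5 : (t / 3 - d) * ((t / 3 - (1 - t / 3)) - 4 * (t / 3) * S ^ 2 - s ^ 2) ≤ 0 :=
      mul_nonpos_of_nonneg_of_nonpos (sub_nonneg.2 hd') (by linarith)
    have h6 : (2 * (1 - t / 3)) ^ 2 ≤ (s + 2 * (t / 3) * S) ^ 2 := by nlinarith
    have h7 : 2 * (1 - t / 3) ≤ s + 2 * (t / 3) * S := by
      apply le_of_sq_le_sq h6
      positivity
    refine ⟨?_, h7⟩
    have h8 : 2 * (1 - t / 3) ≤ 2 * S * (1 + t / 3) := by nlinarith
    have h9 : (2 - t) * (1 + t / 3) = 1 - t / 3 := by nlinarith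
    have h10 : (2 - t) * (1 + t / 3) ≤ S * (1 + t / 3) := by rw [h9]; linarith
    exact le_of_mul_le_mul_right h10 (by linarith)
  · exfalso
    have hS2 : 4 * (t / 3) * S ^ 2 < 2 * (t / 3) - 1 := by nlinarith [sq_nonneg s]
    have hS3 : S ^ 2 < 0.0671 := by nlinarith
    have h5 : (s + 2 * (t / 3) * S) ^ 2 ≤ (2 * S * (1 + t / 3)) ^ 2 := by
      apply pow_le_pow_left₀ (by positivity)
      nlinarith
    have h6 : (t / 3 - d) * ((t / 3 - (1 - t / 3)) - 4 * (t / 3) * S ^ 2 - s ^ 2) ≤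
        (t / 3 - (1 - t / 3)) * (t / 3 - (1 - t / 3)) := by
      apply mul_le_mul (by linarith) _ (by linarith) (by linarith)
      have : 0 ≤ 4 * (t / 3) * S ^ 2 := by positivity
      nlinarith [sq_nonneg s]
    have h7 : (2 * S * (1 + t / 3)) ^ 2 = 4 * (1 + t / 3) ^ 2 * S ^ 2 := by ring
    have h8 : 4 * (1 + t / 3) ^ 2 * S ^ 2 ≤ 4 * (1 + t / 3) ^ 2 * 0.0671 := by
      apply mul_le_mul_of_nonneg_left hS3.le
      positivity
    nlinarith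

lemma le_two_mul_of_sq {s S : ℝ} (hs : 0 ≤ s) (hS : 0 ≤ S) (h : s ^ 2 ≤ 2 * S * s) :
    s ≤ 2 * S := by
  rcases hs.eq_or_lt with h0 | h0
  · rw [← h0]; positivity
  · have : s * s ≤ (2 * S) * s := by nlinarith
    exact le_of_mul_le_mul_right this h0

lemma scalar (t s S d e al be : ℝ) (ht : t ^ 2 = 3) (ht0 : 0 < t)
    (hs : 0 ≤ s) (hS : 0 ≤ S)
    (hd : 1 - t / 3 ≤ d) (hd' : d ≤ t / 3) (he : 1 - t / 3 ≤ e) (he' : e ≤ t / 3)
    (hal : s ^ 2 ≤ 2 * al) (hbe : s ^ 2 ≤ 2 * be) (hab : al + be ≤ 2 * S * s)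
    (hQ : 4 * (1 - t / 3) ^ 2 ≤
      s ^ 2 + (e - d) ^ 2 + 4 * d * e * S ^ 2 + 2 * e * al + 2 * d * be) :
    2 - t ≤ S ∧ 2 * (1 - t / 3) ≤ s + 2 * (t / 3) * S := by
  have hsS : s ≤ 2 * S := le_two_mul_of_sq hs hS (by linarith)
  rcases le_total d e with h | h
  · exact scalar_aux t s S d e al be ht ht0 hs hS hd hd' he' h hbe hsS hab hQ
  · exact scalar_aux t s S e d be al ht ht0 hs hS he he' hd' h hal hsS (by linarith)
      (by nlinarith)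

variable {E : Type*} [NormedAddCommGroup E] [InnerProductSpace ℝ E]

open Real in
lemma pair {a b n m : E} (hn : ‖n‖ = 1) (hm : ‖m‖ = 1) {d e : ℝ}
    (hd : 1 - √3 / 3 ≤ d) (hd' : d ≤ √3 / 3) (he : 1 - √3 / 3 ≤ e) (he' : e ≤ √3 / 3)
    (h1 : ‖b - (a - n)‖ ≤ 1) (h2 : ‖a - (b - m)‖ ≤ 1)
    (hQ : 2 * (1 - √3 / 3) ≤ ‖(b + e • m) - (a + d • n)‖) :
    2 - √3 ≤ ‖m - n‖ / 2 ∧ 2 * (1 - √3 / 3) ≤ ‖b - a‖ + √3 / 3 * ‖m - n‖ := by
  have ht : (√3) ^ 2 = 3 := Real.sq_sqrt (by norm_num)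
  have ht0 : 0 < √3 := Real.sqrt_pos.2 (by norm_num)
  set v := b - a with hv
  have e1 : b - (a - n) = v + n := by rw [hv]; abel
  have e2 : a - (b - m) = m - v := by rw [hv]; abel
  have e3 : (b + e • m) - (a + d • n) = v + (e • m - d • n) := by rw [hv]; abel
  rw [e1] at h1
  rw [e2] at h2
  rw [e3] at hQ
  have nn : inner ℝ n n = (1 : ℝ) := by rw [real_inner_self_eq_norm_sq, hn]; norm_num
  have mm : inner ℝ m m = (1 : ℝ) := by rw [real_inner_self_eq_norm_sq, hm]; norm_num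
  have q1 : ‖v + n‖ ^ 2 = ‖v‖ ^ 2 + 2 * inner ℝ v n + 1 := by
    rw [norm_add_sq_real, hn]; norm_num
  have q2 : ‖m - v‖ ^ 2 = 1 - 2 * inner ℝ v m + ‖v‖ ^ 2 := by
    rw [norm_sub_sq_real, hm, real_inner_comm]; norm_num
  have q3 : ‖m - n‖ ^ 2 = 2 - 2 * inner ℝ m n := by
    rw [norm_sub_sq_real, hn, hm]; norm_num; ring
  have q4 : ‖v + (e • m - d • n)‖ ^ 2 = ‖v‖ ^ 2 + e ^ 2 + d ^ 2 - 2 * d * e * inner ℝ m n
      + 2 * e * inner ℝ v m - 2 * d * inner ℝ v n := by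
    rw [← real_inner_self_eq_norm_sq, ← real_inner_self_eq_norm_sq]
    simp only [inner_add_left, inner_add_right, inner_sub_left, inner_sub_right,
      real_inner_smul_left, real_inner_smul_right, nn, mm, real_inner_comm v m,
      real_inner_comm v n, real_inner_comm m n]
    ring
  have b1 : ‖v‖ ^ 2 ≤ 2 * (-inner ℝ v n) := by
    have : ‖v + n‖ ^ 2 ≤ 1 := by nlinarith [norm_nonneg (v + n)]
    linarith
  have b2 : ‖v‖ ^ 2 ≤ 2 * inner ℝ v m := by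
    have : ‖m - v‖ ^ 2 ≤ 1 := by nlinarith [norm_nonneg (m - v)]
    linarith
  have b3 : inner ℝ v m + (-inner ℝ v n) ≤ 2 * (‖m - n‖ / 2) * ‖v‖ := by
    have : inner ℝ v (m - n) ≤ ‖v‖ * ‖m - n‖ := real_inner_le_norm _ _
    rw [inner_sub_right] at this
    linarith
  have b4 : 4 * (1 - √3 / 3) ^ 2 ≤ ‖v‖ ^ 2 + (e - d) ^ 2 + 4 * d * e * (‖m - n‖ / 2) ^ 2
      + 2 * e * inner ℝ v m + 2 * d * (-inner ℝ v n) := by
    have hr : 0 ≤ 2 * (1 - √3 / 3) := by nlinarith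
    have : (2 * (1 - √3 / 3)) ^ 2 ≤ ‖v + (e • m - d • n)‖ ^ 2 := pow_le_pow_left₀ hr hQ 2
    rw [q4] at this
    have q5 : inner ℝ m n = 1 - ‖m - n‖ ^ 2 / 2 := by linarith
    rw [q5] at this
    nlinarith
  obtain ⟨c1, c2⟩ := scalar (√3) ‖v‖ (‖m - n‖ / 2) d e (inner ℝ v m) (-inner ℝ v n) ht ht0
    (norm_nonneg _) (by positivity) hd hd' he he' b2 b1 b3 b4
  refine ⟨c1, ?_⟩
  linarith

end Pool.Agent.H7.Kiss
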