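import Mathlib

set_option autoImplicit false

namespace Pool.Agent.H7.Kiss

open Real

abbrev P := EuclideanSpace ℝ (Fin 2)

lemma inner_P (p q : P) : inner ℝ p q = p 0 * q 0 + p 1 * q 1 := by
  rw [PiLp.inner_apply]
  simp [Fin.sum_univ_two]
  ring

lemma normsq_P (p : P) : ‖p‖ ^ 2 = p 0 ^ 2 + p 1 ^ 2 := by
  rw [← real_inner_self_eq_norm_sq, inner_P]; ring

noncomputable def nv (x : ℝ) : P := !₂[cos x, sin x]
noncomputable def tv (x : ℝ) : P := !₂[-sin x, cos x]

@[simp] lemma nv_zero (x : ℝ) : nv x 0 = cos x := by simp [nv]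
@[simp] lemma nv_one (x : ℝ) : nv x 1 = sin x := by simp [nv]
@[simp] lemma tv_zero (x : ℝ) : tv x 0 = -sin x := by simp [tv]
@[simp] lemma tv_one (x : ℝ) : tv x 1 = cos x := by simp [tv]

lemma norm_nv (x : ℝ) : ‖nv x‖ = 1 := by
  have h : ‖nv x‖ ^ 2 = 1 := by rw [normsq_P]; simp
  have := norm_nonneg (nv x)
  nlinarith

lemma nv_add_two_pi (x : ℝ) : nv (x + 2 * π) = nv x := by
  ext i; fin_cases i <;> simp [nv]

lemma tv_add_two_pi (x : ℝ) : tv (x + 2 * π) = tv x := by
  ext i; fin_cases i <;> simp [tv]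

lemma nv_add_pi (x : ℝ) : nv (x + π) = -nv x := by
  ext i; fin_cases i <;> simp [nv]

lemma exists_nv {n : P} (hn : ‖n‖ = 1) : ∃ x : ℝ, -π < x ∧ x ≤ π ∧ n = nv x := by
  set z : ℂ := ⟨n 0, n 1⟩ with hz
  have h1 : ‖z‖ = 1 := by
    have h2 : ‖z‖ ^ 2 = 1 := by
      rw [← Complex.normSq_eq_norm_sq, Complex.normSq_apply, hz]
      have := normsq_P n
      rw [hn] at this
      simp only
      nlinarith
    have := norm_nonneg z
    nlinarith
  refine ⟨Complex.arg z, Complex.neg_pi_lt_arg z, Complex.arg_le_pi z, ?_⟩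
  have hc := Complex.norm_mul_cos_arg z
  have hs := Complex.norm_mul_sin_arg z
  rw [h1, one_mul] at hc hs
  ext i
  fin_cases i
  · show n 0 = nv (Complex.arg z) 0
    rw [nv_zero, hc]
  · show n 1 = nv (Complex.arg z) 1
    rw [nv_one, hs]

lemma norm_nv_sub (x y : ℝ) : ‖nv x - nv y‖ = 2 * |sin ((x - y) / 2)| := by
  have h : ‖nv x - nv y‖ ^ 2 = (2 * |sin ((x - y) / 2)|) ^ 2 := by
    rw [normsq_P, mul_pow, sq_abs]
    simp only [PiLp.sub_apply, nv_zero, nv_one]
    have h1 : cos (x - y) = 1 - 2 * sin ((x - y) / 2) ^ 2 := by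
      have := Real.cos_two_mul ((x - y) / 2)
      rw [show 2 * ((x - y) / 2) = x - y by ring] at this
      rw [this, Real.cos_sq']
      ring
    rw [Real.cos_sub] at h1
    nlinarith [Real.sin_sq_add_cos_sq x, Real.sin_sq_add_cos_sq y]
  have h3 : 0 ≤ 2 * |sin ((x - y) / 2)| := by positivity
  exact (pow_left_inj₀ (norm_nonneg _) h3 two_ne_zero).1 h

lemma continuous_inner_nv (a : P) : Continuous fun x => inner ℝ a (nv x) := by
  simp only [inner_P, nv_zero, nv_one]
  fun_prop

lemma integral_inner_nv (a : P) (x y : ℝ) :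
    ∫ s in x..y, inner ℝ a (nv s) = inner ℝ a (tv x) - inner ℝ a (tv y) := by
  have h : ∀ s ∈ Set.uIcc x y, HasDerivAt (fun s => -inner ℝ a (tv s)) (inner ℝ a (nv s)) s := by
    intro s _
    simp only [inner_P, nv_zero, nv_one, tv_zero, tv_one]
    have h1 : HasDerivAt (fun s => a 0 * sin s - a 1 * cos s)
        (a 0 * cos s - a 1 * (-sin s)) s :=
      ((hasDerivAt_sin s).const_mul (a 0)).sub ((hasDerivAt_cos s).const_mul (a 1))
    have e1 : (fun s => -(a 0 * -sin s + a 1 * cos s)) = fun s => a 0 * sin s - a 1 * cos s := by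
      funext s; ring
    have e2 : a 0 * cos s + a 1 * sin s = a 0 * cos s - a 1 * (-sin s) := by ring
    rw [e1, e2]
    exact h1
  rw [intervalIntegral.integral_eq_sub_of_hasDerivAt h
    ((continuous_inner_nv a).intervalIntegrable _ _)]
  ring

/-- The chord between two support points is at most the length of the arc, in the form of the
support function. -/
lemma chord {h : ℝ → ℝ} (hc : Continuous h) {a b : P}
    (ha : ∀ s, inner ℝ a (nv s) ≤ h s) (hb : ∀ s, inner ℝ b (nv s) ≤ h s) {x y : ℝ}
    (hxy : x < y) (hyx : y - x < π)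
    (h1 : inner ℝ (b - a) (nv x) ≤ 0) (h2 : 0 ≤ inner ℝ (b - a) (nv y)) :
    ‖b - a‖ ≤ (∫ s in x..y, h s) + inner ℝ b (tv y) - inner ℝ a (tv x) := by
  set v := b - a with hv
  obtain ⟨z, hz, hz0⟩ : ∃ z ∈ Set.Icc x y, inner ℝ v (nv z) = (0 : ℝ) := by
    have := intermediate_value_Icc hxy.le (continuous_inner_nv v).continuousOn
    exact this ⟨h1, h2⟩
  -- v = ‖v‖ tv z
  have hvt : ‖v‖ ≤ inner ℝ v (tv z) := by
    have hsq : ‖v‖ ^ 2 = inner ℝ v (tv z) ^ 2 := by
      rw [normsq_P]
      rw [inner_P] at hz0 ⊢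
      simp only [nv_zero, nv_one, tv_zero, tv_one] at hz0 ⊢
      have hcs := Real.sin_sq_add_cos_sq z
      have : v 0 ^ 2 + v 1 ^ 2 = (v 0 * -sin z + v 1 * cos z) ^ 2
          + (v 0 * cos z + v 1 * sin z) ^ 2 := by
        have : (v 0 * -sin z + v 1 * cos z) ^ 2 + (v 0 * cos z + v 1 * sin z) ^ 2 =
          (v 0 ^ 2 + v 1 ^ 2) * (sin z ^ 2 + cos z ^ 2) := by ring
        rw [this, hcs, mul_one]
      rw [this, hz0]; ring
    rcases le_total 0 (inner ℝ v (tv z)) with hp | hp
    · exact ((pow_left_inj₀ (norm_nonneg _) hp two_ne_zero).1 hsq).le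
    · -- negative case
      have hneg : ‖v‖ = -inner ℝ v (tv z) := by
        have : ‖v‖ ^ 2 = (-inner ℝ v (tv z)) ^ 2 := by rw [hsq]; ring
        exact (pow_left_inj₀ (norm_nonneg _) (by linarith) two_ne_zero).1 this
      -- v = inner v tv z • tv z
      have hin : ∀ s, inner ℝ v (nv s) = inner ℝ v (tv z) * sin (s - z) := by
        intro s
        rw [inner_P] at hz0
        simp only [inner_P, nv_zero, nv_one, tv_zero, tv_one] at hz0 ⊢
        rw [Real.sin_sub]
        have hcs := Real.sin_sq_add_cos_sq z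
        have e0 : v 0 * cos s + v 1 * sin s
            = (v 0 * cos s + v 1 * sin s) * (sin z ^ 2 + cos z ^ 2) := by rw [hcs, mul_one]
        rw [e0]
        linear_combination (cos s * cos z + sin s * sin z) * hz0
      rw [hin] at h1 h2
      have s1 : sin (x - z) ≤ 0 := by
        have : 0 ≤ sin (z - x) := Real.sin_nonneg_of_nonneg_of_le_pi (by linarith [hz.1])
          (by linarith [hz.2])
        rw [← neg_sub z x, Real.sin_neg]; linarith
      have s2 : 0 ≤ sin (y - z) := Real.sin_nonneg_of_nonneg_of_le_pi (by linarith [hz.2])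
          (by linarith [hz.1])
      rcases eq_or_lt_of_le hp with h0 | h0
      · rw [hneg, h0]; simp
      · exfalso
        have t1 : sin (x - z) = 0 := by
          by_contra hne
          have : sin (x - z) < 0 := lt_of_le_of_ne s1 hne
          have := mul_pos_of_neg_of_neg h0 this
          linarith
        have t2 : sin (y - z) = 0 := by
          by_contra hne
          have : 0 < sin (y - z) := lt_of_le_of_ne s2 (Ne.symm hne)
          have := mul_neg_of_neg_of_pos h0 this
          linarith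
        have u1 : x - z = 0 := by
          rcases lt_trichotomy (x - z) 0 with hh | hh | hh
          · have := Real.sin_neg_of_neg_of_neg_pi_lt hh (by linarith [hz.2])
            linarith
          · exact hh
          · linarith [hz.1]
        have u2 : y - z = 0 := by
          rcases lt_trichotomy (y - z) 0 with hh | hh | hh
          · linarith [hz.2]
          · exact hh
          · have := Real.sin_pos_of_pos_of_lt_pi hh (by linarith [hz.1])
            linarith
        linarith
  have i1 : ∫ s in x..z, inner ℝ a (nv s) ≤ ∫ s in x..z, h s :=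
    intervalIntegral.integral_mono_on hz.1 ((continuous_inner_nv a).intervalIntegrable _ _)
      (hc.intervalIntegrable _ _) (fun s _ => ha s)
  have i2 : ∫ s in z..y, inner ℝ b (nv s) ≤ ∫ s in z..y, h s :=
    intervalIntegral.integral_mono_on hz.2 ((continuous_inner_nv b).intervalIntegrable _ _)
      (hc.intervalIntegrable _ _) (fun s _ => hb s)
  have i3 : (∫ s in x..z, h s) + ∫ s in z..y, h s = ∫ s in x..y, h s :=
    intervalIntegral.integral_add_adjacent_intervals (hc.intervalIntegrable _ _)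
      (hc.intervalIntegrable _ _)
  rw [integral_inner_nv] at i1 i2
  rw [hv, inner_sub_left] at hvt
  rw [hv]
  linarith

end Pool.Agent.H7.Kiss
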