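import Mathlib
import Pool.Agent.H7.Kiss.Pair
import Pool.Agent.H7.Kiss.Perim

set_option autoImplicit false

namespace Pool.Agent.H7.Kiss

open Real

/-- A compact convex plane set of constant width one. -/
structure CW (K : Set P) : Prop where
  cpt : IsCompact K
  conv : Convex ℝ K
  ne : K.Nonempty
  wid : ∀ u : P, ‖u‖ = 1 → ∃ p ∈ K, ∃ q ∈ K, inner ℝ (p - q) u = (1 : ℝ) ∧
    (∀ z ∈ K, inner ℝ z u ≤ (inner ℝ p u : ℝ)) ∧ (∀ z ∈ K, inner ℝ q u ≤ (inner ℝ z u : ℝ))

variable {K : Set P}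

lemma CW.diam (hK : CW K) {p q : P} (hp : p ∈ K) (hq : q ∈ K) : ‖p - q‖ ≤ 1 := by
  rcases eq_or_ne (p - q) 0 with h0 | h0
  · rw [h0]; simp
  · have hn : 0 < ‖p - q‖ := norm_pos_iff.2 h0
    set u : P := (‖p - q‖⁻¹ : ℝ) • (p - q) with hu
    have hu1 : ‖u‖ = 1 := by
      rw [hu, norm_smul, norm_inv, norm_norm, inv_mul_cancel₀ hn.ne']
    obtain ⟨p', hp', q', hq', e, m1, m2⟩ := hK.wid u hu1
    have e1 : inner ℝ (p - q) u = ‖p - q‖ := by
      rw [hu, real_inner_smul_right, real_inner_self_eq_norm_sq]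
      field_simp
    have := m1 p hp
    have := m2 q hq
    rw [inner_sub_left] at e e1
    linarith

lemma CW.opp (hK : CW K) {a n : P} (ha : a ∈ K) (hn : ‖n‖ = 1)
    (hs : ∀ z ∈ K, inner ℝ (z - a) n ≤ (0 : ℝ)) : a - n ∈ K := by
  obtain ⟨p, hp, q, hq, e, m1, m2⟩ := hK.wid n hn
  have h1 := hs p hp
  have h2 : (1 : ℝ) ≤ inner ℝ (a - q) n := by
    rw [inner_sub_left] at e h1 ⊢
    linarith
  have h3 := hK.diam ha hq
  have h4 : ‖(a - q) - n‖ ^ 2 ≤ 0 := by
    rw [norm_sub_sq_real, hn]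
    nlinarith [norm_nonneg (a - q)]
  have h5 : ‖(a - q) - n‖ = 0 := by nlinarith [norm_nonneg ((a - q) - n)]
  have h6 : (a - q) - n = 0 := norm_eq_zero.1 h5
  have : a - n = q := by
    have : a - n = q + ((a - q) - n) := by abel
    rw [this, h6, add_zero]
  rw [this]; exact hq

lemma CW.exists_support (hK : CW K) : ∃ h : ℝ → ℝ, Continuous h ∧
    (∀ z ∈ K, ∀ s, inner ℝ z (nv s) ≤ h s) ∧ (∀ s, h s + h (s + π) = 1) := by
  have hex : ∀ s, ∃ p ∈ K, ∀ z ∈ K, inner ℝ z (nv s) ≤ (inner ℝ p (nv s) : ℝ) := by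
    intro s
    obtain ⟨p, hp, q, hq, e, m1, m2⟩ := hK.wid (nv s) (norm_nv s)
    exact ⟨p, hp, m1⟩
  choose p hp hmax using hex
  obtain ⟨M, hM⟩ := hK.cpt.isBounded.exists_norm_le
  refine ⟨fun s => inner ℝ (p s) (nv s), ?_, fun z hz s => hmax s z hz, ?_⟩
  · have hM0 : 0 ≤ M := le_trans (norm_nonneg _) (hM _ (hp 0))
    have key : ∀ x y, inner ℝ (p x) (nv x) - inner ℝ (p y) (nv y) ≤ M * ‖nv x - nv y‖ := by
      intro x y
      have h1 : (inner ℝ (p x) (nv y) : ℝ) ≤ inner ℝ (p y) (nv y) := hmax y _ (hp x)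
      have h2 : (inner ℝ (p x) (nv x - nv y) : ℝ) ≤ ‖p x‖ * ‖nv x - nv y‖ :=
        real_inner_le_norm _ _
      have h3 : ‖p x‖ * ‖nv x - nv y‖ ≤ M * ‖nv x - nv y‖ :=
        mul_le_mul_of_nonneg_right (hM _ (hp x)) (norm_nonneg _)
      rw [inner_sub_right] at h2
      linarith
    have hnv : ∀ x y, ‖nv x - nv y‖ ≤ |x - y| := by
      intro x y
      rw [norm_nv_sub]
      have := Real.abs_sin_le_abs (x := (x - y) / 2)
      rw [abs_div, abs_two] at this
      linarith
    have hlip : ∀ x y, |inner ℝ (p x) (nv x) - inner ℝ (p y) (nv y)| ≤ M * |x - y| := by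
      intro x y
      rw [abs_le]
      constructor
      · have h1 := key y x
        have h2 := mul_le_mul_of_nonneg_left (hnv y x) hM0
        rw [abs_sub_comm y x] at h2
        linarith
      · have h1 := key x y
        have h2 := mul_le_mul_of_nonneg_left (hnv x y) hM0
        linarith
    apply LipschitzWith.continuous (K := ⟨M, hM0⟩)
    apply LipschitzWith.of_dist_le_mul
    intro x y
    rw [Real.dist_eq, Real.dist_eq]
    exact hlip x y
  · intro s
    show inner ℝ (p s) (nv s) + inner ℝ (p (s + π)) (nv (s + π)) = (1 : ℝ)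
    obtain ⟨p', hp', q', hq', e, m1, m2⟩ := hK.wid (nv s) (norm_nv s)
    have a1 : (inner ℝ (p s) (nv s) : ℝ) = inner ℝ p' (nv s) :=
      le_antisymm (m1 _ (hp s)) (hmax s _ hp')
    have a2 : (inner ℝ (p (s + π)) (nv (s + π)) : ℝ) = -inner ℝ q' (nv s) := by
      have b1 := hmax (s + π) q' hq'
      have b2 := m2 _ (hp (s + π))
      rw [nv_add_pi] at b1 ⊢
      rw [inner_neg_right, inner_neg_right] at b1
      rw [inner_neg_right]
      linarith
    rw [a1, a2]
    rw [inner_sub_left] at e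
    linarith

lemma integral_period {h : ℝ → ℝ} (hc : Continuous h) (hp : ∀ s, h s + h (s + π) = 1) (x : ℝ) :
    ∫ s in x..(x + 2 * π), h s = π := by
  have h1 : ∫ s in x..(x + 2 * π), h s = (∫ s in x..(x + π), h s)
      + ∫ s in (x + π)..(x + 2 * π), h s :=
    (intervalIntegral.integral_add_adjacent_intervals (hc.intervalIntegrable _ _)
      (hc.intervalIntegrable _ _)).symm
  have h2 : ∫ s in (x + π)..(x + 2 * π), h s = ∫ s in x..(x + π), h (s + π) := by
    rw [intervalIntegral.integral_comp_add_right (f := h)]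
    congr 1
    ring
  have hc2 : Continuous fun s => h (s + π) := hc.comp (continuous_id.add continuous_const)
  have h3 : ∫ s in x..(x + π), (h s + h (s + π)) = (∫ s in x..(x + π), h s)
      + ∫ s in x..(x + π), h (s + π) :=
    intervalIntegral.integral_add (hc.intervalIntegrable _ _) (hc2.intervalIntegrable _ _)
  rw [h1, h2, ← h3]
  simp_rw [hp]
  simp

/-- numerical inequality -/
lemma numeric : π < 16 * (1 - √3 / 3) - 2 * (√3 / 3) * (8 * sin (π / 8)) := by
  have h3 : √3 < 1.7321 := by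
    rw [Real.sqrt_lt' (by norm_num)]; norm_num
  have h30 : 0 < √3 := Real.sqrt_pos.2 (by norm_num)
  have hs : sin (π / 8) < 0.3827 := by
    rw [Real.sin_pi_div_eight]
    have h2 : 1.4142 < √2 := by
      rw [Real.lt_sqrt (by norm_num)]; norm_num
    have : √(2 - √2) < 0.7654 := by
      rw [Real.sqrt_lt' (by norm_num)]
      nlinarith
    linarith
  have hp := Real.pi_lt_d2
  nlinarith

theorem core_seq (hK : CW K) (A N X : ℕ → P) (T D : ℕ → ℝ)
    (hA : ∀ k, A k ∈ K) (hN : ∀ k, N k = nv (T k))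
    (hX : ∀ k, X k = A k + D k • N k)
    (hS : ∀ k, ∀ z ∈ K, inner ℝ (z - A k) (N k) ≤ (0 : ℝ))
    (hD : ∀ k, 1 - √3 / 3 ≤ D k) (hD' : ∀ k, D k ≤ √3 / 3)
    (hT : ∀ k, k < 8 → T k ≤ T (k + 1)) (hT8 : T 8 = T 0 + 2 * π) (hT7 : T 7 < T 0 + 2 * π)
    (hA8 : A 8 = A 0)
    (hXX : ∀ k, k < 8 → 2 * (1 - √3 / 3) ≤ ‖X (k + 1) - X k‖) : False := by
  obtain ⟨h, hc, hsup, hper⟩ := hK.exists_support
  have hNn : ∀ k, ‖N k‖ = 1 := fun k => by rw [hN]; exact norm_nv _
  have hpair : ∀ k, k < 8 → 2 - √3 ≤ ‖N (k + 1) - N k‖ / 2 ∧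
      2 * (1 - √3 / 3) ≤ ‖A (k + 1) - A k‖ + √3 / 3 * ‖N (k + 1) - N k‖ := by
    intro k hk
    have o1 : A k - N k ∈ K := hK.opp (hA k) (hNn k) (hS k)
    have o2 : A (k + 1) - N (k + 1) ∈ K := hK.opp (hA _) (hNn _) (hS _)
    apply pair (hNn k) (hNn (k + 1)) (hD k) (hD' k) (hD (k + 1)) (hD' (k + 1))
      (hK.diam (hA _) o1) (hK.diam (hA _) o2)
    rw [← hX, ← hX]
    exact hXX k hk
  -- total range
  have hTk : ∀ k, k ≤ 8 → T 0 ≤ T k ∧ T k ≤ T 8 := by
    have m1 := hT 0 (by norm_num)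
    have m2 := hT 1 (by norm_num)
    have m3 := hT 2 (by norm_num)
    have m4 := hT 3 (by norm_num)
    have m5 := hT 4 (by norm_num)
    have m6 := hT 5 (by norm_num)
    have m7 := hT 6 (by norm_num)
    have m8 := hT 7 (by norm_num)
    norm_num at m1 m2 m3 m4 m5 m6 m7 m8
    intro k hk
    interval_cases k <;> constructor <;> linarith
  have hpi := Real.pi_pos
  have hgap : ∀ k, k < 8 → ‖N (k + 1) - N k‖ = 2 * sin ((T (k + 1) - T k) / 2) := by
    intro k hk
    rw [hN, hN, norm_nv_sub, abs_of_nonneg]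
    apply Real.sin_nonneg_of_nonneg_of_le_pi
    · linarith [hT k hk]
    · have := (hTk k hk.le).1
      have := (hTk (k + 1) hk).2
      linarith
  have t2 : √3 < 1.7321 := by
    rw [Real.sqrt_lt' (by norm_num)]; norm_num
  have hlow : ∀ k, k < 8 → 0.5358 < T (k + 1) - T k := by
    intro k hk
    have h1 := (hpair k hk).1
    rw [hgap k hk] at h1
    have h2 : sin ((T (k + 1) - T k) / 2) ≤ (T (k + 1) - T k) / 2 := Real.sin_le (by linarith [hT k hk])
    linarith
  have hup : ∀ k, k < 8 → T (k + 1) - T k < π := by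
    have m1 := hlow 0 (by norm_num)
    have m2 := hlow 1 (by norm_num)
    have m3 := hlow 2 (by norm_num)
    have m4 := hlow 3 (by norm_num)
    have m5 := hlow 4 (by norm_num)
    have m6 := hlow 5 (by norm_num)
    have m7 := hlow 6 (by norm_num)
    have m8 := hlow 7 (by norm_num)
    norm_num at m1 m2 m3 m4 m5 m6 m7 m8
    have hp := Real.pi_lt_d2
    intro k hk
    interval_cases k <;> norm_num <;> linarith
  have hch : ∀ k, k < 8 → ‖A (k + 1) - A k‖ ≤ (∫ s in (T k)..(T (k + 1)), h s)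
      + inner ℝ (A (k + 1)) (tv (T (k + 1))) - inner ℝ (A k) (tv (T k)) := by
    intro k hk
    apply chord hc (fun s => hsup _ (hA k) s) (fun s => hsup _ (hA (k + 1)) s)
      (by linarith [hlow k hk]) (hup k hk)
    · rw [← hN]; exact hS k _ (hA (k + 1))
    · rw [← hN]
      have := hS (k + 1) _ (hA k)
      rw [← neg_sub, inner_neg_left]
      linarith
  have hsum : ∑ k ∈ Finset.range 8, ‖A (k + 1) - A k‖ ≤ π := by
    have s1 : ∑ k ∈ Finset.range 8, ‖A (k + 1) - A k‖ ≤
        ∑ k ∈ Finset.range 8, ((∫ s in (T k)..(T (k + 1)), h s)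
          + (inner ℝ (A (k + 1)) (tv (T (k + 1))) - inner ℝ (A k) (tv (T k)))) := by
      apply Finset.sum_le_sum
      intro k hk
      have := hch k (Finset.mem_range.1 hk)
      linarith
    rw [Finset.sum_add_distrib] at s1
    rw [intervalIntegral.sum_integral_adjacent_intervals
      (fun k _ => hc.intervalIntegrable _ _)] at s1
    rw [Finset.sum_range_sub (fun k => (inner ℝ (A k) (tv (T k)) : ℝ))] at s1
    rw [hA8, hT8, tv_add_two_pi, integral_period hc hper] at s1
    linarith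
  have hlb : 16 * (1 - √3 / 3) - 2 * (√3 / 3) * ∑ k ∈ Finset.range 8, sin ((T (k + 1) - T k) / 2)
      ≤ ∑ k ∈ Finset.range 8, ‖A (k + 1) - A k‖ := by
    have s1 : ∑ k ∈ Finset.range 8, (2 * (1 - √3 / 3)
        - 2 * (√3 / 3) * sin ((T (k + 1) - T k) / 2)) ≤
        ∑ k ∈ Finset.range 8, ‖A (k + 1) - A k‖ := by
      apply Finset.sum_le_sum
      intro k hk
      have h1 := (hpair k (Finset.mem_range.1 hk)).2
      rw [hgap k (Finset.mem_range.1 hk)] at h1
      linarith
    rw [Finset.sum_sub_distrib] at s1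
    rw [Finset.mul_sum]
    simp only [Finset.sum_const, Finset.card_range, nsmul_eq_mul] at s1
    push_cast at s1
    linarith
  have hjen : ∑ k ∈ Finset.range 8, sin ((T (k + 1) - T k) / 2) ≤ 8 * sin (π / 8) := by
    have hconc : ConcaveOn ℝ (Set.Icc 0 π) sin := strictConcaveOn_sin_Icc.concaveOn
    have := hconc.le_map_sum (t := Finset.range 8) (w := fun _ => (1 / 8 : ℝ))
      (p := fun k => (T (k + 1) - T k) / 2) (fun _ _ => by norm_num) (by simp)
      (fun k hk => by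
        have hk' := Finset.mem_range.1 hk
        exact ⟨by linarith [hlow k hk'], by linarith [hup k hk', hpi]⟩)
    simp only [smul_eq_mul] at this
    rw [← Finset.mul_sum, ← Finset.mul_sum, ← Finset.sum_div,
      Finset.sum_range_sub (fun k => T k), hT8] at this
    have e : (1 / 8 : ℝ) * ((T 0 + 2 * π - T 0) / 2) = π / 8 := by ring
    rw [e] at this
    linarith
  have h30 : 0 < √3 := Real.sqrt_pos.2 (by norm_num)
  have := numeric
  have h5 := mul_le_mul_of_nonneg_left hjen (by positivity : 0 ≤ 2 * (√3 / 3))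
  linarith

end Pool.Agent.H7.Kiss
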