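import Mathlib

set_option autoImplicit false

namespace Pool.Agent.H7.Kiss

open Real

variable {E : Type*} [NormedAddCommGroup E] [InnerProductSpace ℝ E]

/-- Three points, `q, r` the farthest pair. -/
lemma jung_three_aux {p q r : E} (h1 : ‖q - p‖ ≤ ‖q - r‖) (h2 : ‖r - p‖ ≤ ‖q - r‖)
    (h3 : ‖q - r‖ ≤ 1) : ∃ c : E, ‖c - p‖ ≤ √3 / 3 ∧ ‖c - q‖ ≤ √3 / 3 ∧ ‖c - r‖ ≤ √3 / 3 := by
  have ht : (√3) ^ 2 = 3 := Real.sq_sqrt (by norm_num)
  have ht0 : 0 < √3 := Real.sqrt_pos.2 (by norm_num)
  have fin : ∀ v : E, ‖v‖ ^ 2 ≤ 1 / 3 → ‖v‖ ≤ √3 / 3 := by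
    intro v hv
    apply le_of_sq_le_sq _ (by positivity)
    have : (√3 / 3) ^ 2 = 1 / 3 := by rw [div_pow, ht]; norm_num
    rw [this]; exact hv
  set u := q - p with hu
  set v := r - p with hv
  set A := ‖u‖ ^ 2 with hA
  set B := ‖v‖ ^ 2 with hB
  set C := (inner ℝ u v : ℝ) with hC
  have hqr : q - r = u - v := by rw [hu, hv]; abel
  rw [hqr] at h1 h2 h3
  set G := ‖u - v‖ ^ 2 with hG
  have hG1 : G = A - 2 * C + B := norm_sub_sq_real u v
  have hAG : A ≤ G := pow_le_pow_left₀ (norm_nonneg _) h1 2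
  have hBG : B ≤ G := pow_le_pow_left₀ (norm_nonneg _) h2 2
  have hG2 : G ≤ 1 := by
    have := pow_le_pow_left₀ (norm_nonneg (u - v)) h3 2
    rw [one_pow] at this
    exact this
  have hA0 : 0 ≤ A := sq_nonneg _
  have hB0 : 0 ≤ B := sq_nonneg _
  have ex : ∀ x y : ℝ, ‖x • u + y • v‖ ^ 2 = x ^ 2 * A + 2 * (x * y) * C + y ^ 2 * B := by
    intro x y
    rw [norm_add_sq_real, norm_smul, norm_smul, real_inner_smul_left, real_inner_smul_right,
      mul_pow, mul_pow]
    simp only [Real.norm_eq_abs, sq_abs]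
    ring
  rcases le_or_gt C 0 with hc | hc
  · -- obtuse: midpoint
    refine ⟨p + ((1 / 2 : ℝ) • u + (1 / 2 : ℝ) • v), fin _ ?_, fin _ ?_, fin _ ?_⟩
    · rw [add_sub_cancel_left, ex]; nlinarith
    · have : p + ((1 / 2 : ℝ) • u + (1 / 2 : ℝ) • v) - q
          = (-(1 / 2) : ℝ) • u + (1 / 2 : ℝ) • v := by
        rw [hu]; module
      rw [this, ex]; nlinarith
    · have : p + ((1 / 2 : ℝ) • u + (1 / 2 : ℝ) • v) - r
          = (1 / 2 : ℝ) • u + (-(1 / 2) : ℝ) • v := by
        rw [hv]; module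
      rw [this, ex]; nlinarith
  · have hCA : 2 * C ≤ A := by linarith
    have hCB : 2 * C ≤ B := by linarith
    have hApos : 0 < A := by linarith
    have hBpos : 0 < B := by linarith
    have hCC : 4 * C ^ 2 ≤ A * B := by nlinarith
    have hD : 0 < A * B - C ^ 2 := by nlinarith [mul_pos hApos hBpos]
    set D := A * B - C ^ 2 with hDd
    set x := B * (A - C) / (2 * D) with hx
    set y := A * (B - C) / (2 * D) with hy
    have k1 : 2 * D * x = B * (A - C) := by rw [hx]; field_simp
    have k2 : 2 * D * y = A * (B - C) := by rw [hy]; field_simp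
    -- linear equations
    have l1 : x * A + y * C = A / 2 := by
      have : 2 * D * (x * A + y * C) = 2 * D * (A / 2) := by
        calc 2 * D * (x * A + y * C) = (2 * D * x) * A + (2 * D * y) * C := by ring
          _ = B * (A - C) * A + A * (B - C) * C := by rw [k1, k2]
          _ = 2 * D * (A / 2) := by rw [hDd]; ring
      exact mul_left_cancel₀ (by positivity) this
    have l2 : x * C + y * B = B / 2 := by
      have : 2 * D * (x * C + y * B) = 2 * D * (B / 2) := by
        calc 2 * D * (x * C + y * B) = (2 * D * x) * C + (2 * D * y) * B := by ring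
          _ = B * (A - C) * C + A * (B - C) * B := by rw [k1, k2]
          _ = 2 * D * (B / 2) := by rw [hDd]; ring
      exact mul_left_cancel₀ (by positivity) this
    have rad : x ^ 2 * A + 2 * (x * y) * C + y ^ 2 * B = (x * A + y * B) / 2 := by
      calc x ^ 2 * A + 2 * (x * y) * C + y ^ 2 * B = x * (x * A + y * C) + y * (x * C + y * B) := by
            ring
        _ = (x * A + y * B) / 2 := by rw [l1, l2]; ring
    have rad2 : x ^ 2 * A + 2 * (x * y) * C + y ^ 2 * B ≤ 1 / 3 := by
      rw [rad]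
      have k3 : 2 * D * (x * A + y * B) = A * B * G := by
        calc 2 * D * (x * A + y * B) = (2 * D * x) * A + (2 * D * y) * B := by ring
          _ = B * (A - C) * A + A * (B - C) * B := by rw [k1, k2]
          _ = A * B * G := by rw [hG1]; ring
      have k4 : 3 * (A * B * G) ≤ 4 * D := by
        have : A * B * G ≤ A * B * 1 := mul_le_mul_of_nonneg_left hG2 (by positivity)
        nlinarith
      have k5 : 3 * (2 * D * (x * A + y * B)) ≤ 4 * D := by rw [k3]; exact k4
      have k6 : (3 * (x * A + y * B)) * (2 * D) ≤ 2 * (2 * D) := by linarith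
      have k7 : 3 * (x * A + y * B) ≤ 2 := le_of_mul_le_mul_right k6 (by positivity)
      linarith
    refine ⟨p + (x • u + y • v), fin _ ?_, fin _ ?_, fin _ ?_⟩
    · rw [add_sub_cancel_left, ex]; exact rad2
    · have : p + (x • u + y • v) - q = (x - 1) • u + y • v := by
        rw [hu]; module
      rw [this, ex]
      have : (x - 1) ^ 2 * A + 2 * ((x - 1) * y) * C + y ^ 2 * B
        = (x ^ 2 * A + 2 * (x * y) * C + y ^ 2 * B) - 2 * (x * A + y * C) + A := by ring
      rw [this, l1]; linarith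
    · have : p + (x • u + y • v) - r = x • u + (y - 1) • v := by
        rw [hv]; module
      rw [this, ex]
      have : x ^ 2 * A + 2 * (x * (y - 1)) * C + (y - 1) ^ 2 * B
        = (x ^ 2 * A + 2 * (x * y) * C + y ^ 2 * B) - 2 * (x * C + y * B) + B := by ring
      rw [this, l2]; linarith

lemma jung_three {p q r : E} (h1 : ‖q - p‖ ≤ 1) (h2 : ‖r - p‖ ≤ 1)
    (h3 : ‖q - r‖ ≤ 1) : ∃ c : E, ‖c - p‖ ≤ √3 / 3 ∧ ‖c - q‖ ≤ √3 / 3 ∧ ‖c - r‖ ≤ √3 / 3 := by
  rcases le_total ‖q - p‖ ‖q - r‖ with a | a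
  · rcases le_total ‖r - p‖ ‖q - r‖ with b | b
    · exact jung_three_aux a b h3
    · -- r p farthest
      obtain ⟨c, c1, c2, c3⟩ := jung_three_aux (p := q) (q := r) (r := p)
        (by rw [norm_sub_rev]; exact b) (by rw [norm_sub_rev p q]; exact a.trans b) h2
      exact ⟨c, c3, c1, c2⟩
  · rcases le_total ‖r - p‖ ‖q - p‖ with b | b
    · -- q p farthest
      obtain ⟨c, c1, c2, c3⟩ := jung_three_aux (p := r) (q := q) (r := p) a
        (by rw [norm_sub_rev p r]; exact b) h1
      exact ⟨c, c3, c2, c1⟩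
    · obtain ⟨c, c1, c2, c3⟩ := jung_three_aux (p := q) (q := r) (r := p)
        (by rw [norm_sub_rev]; exact a.trans b) (by rw [norm_sub_rev p q]; exact b) h2
      exact ⟨c, c3, c1, c2⟩

/-- Jung's theorem in the plane. -/
theorem jung {K : Set (EuclideanSpace ℝ (Fin 2))} (hne : K.Nonempty)
    (hd : ∀ p ∈ K, ∀ q ∈ K, ‖p - q‖ ≤ 1) : ∃ c, ∀ p ∈ K, ‖c - p‖ ≤ √3 / 3 := by
  classical
  have key : (⋂ i : K, Metric.closedBall (i : EuclideanSpace ℝ (Fin 2)) (√3 / 3)).Nonempty := by
    apply Convex.helly_theorem_compact' (𝕜 := ℝ)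
    · intro i; exact convex_closedBall _ _
    · intro i; exact isCompact_closedBall _ _
    · intro I hI
      rw [finrank_euclideanSpace_fin] at hI
      -- three points covering I
      obtain ⟨x0, hx0⟩ := hne
      have : ∃ p q r : K, ∀ i ∈ I, i = p ∨ i = q ∨ i = r := by
        rcases I.eq_empty_or_nonempty with h0 | ⟨p, hp⟩
        · exact ⟨⟨x0, hx0⟩, ⟨x0, hx0⟩, ⟨x0, hx0⟩, by simp [h0]⟩
        · rcases (I.erase p).eq_empty_or_nonempty with h0 | ⟨q, hq⟩
          · refine ⟨p, p, p, fun i hi => ?_⟩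
            by_contra hne
            have : i ∈ I.erase p := Finset.mem_erase.2 ⟨by tauto, hi⟩
            rw [h0] at this
            simp at this
          · rcases ((I.erase p).erase q).eq_empty_or_nonempty with h0 | ⟨r, hr⟩
            · refine ⟨p, q, q, fun i hi => ?_⟩
              by_contra hne
              have : i ∈ (I.erase p).erase q :=
                Finset.mem_erase.2 ⟨by tauto, Finset.mem_erase.2 ⟨by tauto, hi⟩⟩
              rw [h0] at this
              simp at this
            · refine ⟨p, q, r, fun i hi => ?_⟩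
              by_contra hne
              have h1 : i ∈ ((I.erase p).erase q).erase r :=
                Finset.mem_erase.2 ⟨by tauto, Finset.mem_erase.2 ⟨by tauto,
                  Finset.mem_erase.2 ⟨by tauto, hi⟩⟩⟩
              have h2 := Finset.card_pos.2 ⟨i, h1⟩
              rw [Finset.card_erase_of_mem hr, Finset.card_erase_of_mem hq,
                Finset.card_erase_of_mem hp] at h2
              omega
      obtain ⟨p, q, r, hpqr⟩ := this
      obtain ⟨c, c1, c2, c3⟩ := jung_three (hd q q.2 p p.2) (hd r r.2 p p.2) (hd q q.2 r r.2)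
      refine ⟨c, ?_⟩
      simp only [Set.mem_iInter, Metric.mem_closedBall, dist_eq_norm]
      intro i hi
      rcases hpqr i hi with rfl | rfl | rfl
      · exact c1
      · exact c2
      · exact c3
  obtain ⟨c, hc⟩ := key
  refine ⟨c, fun p hp => ?_⟩
  have := Set.mem_iInter.1 hc ⟨p, hp⟩
  rwa [Metric.mem_closedBall, dist_eq_norm] at this

end Pool.Agent.H7.Kiss
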