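import Mathlib
import Pool.Agent.H7.Kiss.Core

set_option autoImplicit false

namespace Pool.Agent.H7.Kiss

open Real

variable {K : Set P}

/-- Projection data of a point outside `K`. -/
lemma proj_data (hK : CW K) {x : P} (h1 : ∃ p ∈ K, ‖x - p‖ ≤ √3 / 3)
    (h2 : ∀ p ∈ K, 1 - √3 / 3 ≤ ‖x - p‖) :
    ∃ a ∈ K, ∃ t : ℝ, -π < t ∧ t ≤ π ∧ ∃ d : ℝ, 1 - √3 / 3 ≤ d ∧ d ≤ √3 / 3 ∧
      x = a + d • nv t ∧ ∀ z ∈ K, inner ℝ (z - a) (nv t) ≤ (0 : ℝ) := by
  obtain ⟨a, ha, hmin⟩ := exists_norm_eq_iInf_of_complete_convex hK.ne hK.cpt.isComplete hK.conv x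
  have hin := (norm_eq_iInf_iff_real_inner_le_zero hK.conv ha).1 hmin
  have hle : ∀ p ∈ K, ‖x - a‖ ≤ ‖x - p‖ := by
    intro p hp
    rw [hmin]
    exact ciInf_le ⟨0, by rintro _ ⟨y, rfl⟩; exact norm_nonneg _⟩ (⟨p, hp⟩ : K)
  have h30 : √3 < 3 := by
    rw [Real.sqrt_lt' (by norm_num)]; norm_num
  have hpos : 0 < ‖x - a‖ := lt_of_lt_of_le (by linarith) (h2 a ha)
  set n : P := (‖x - a‖⁻¹ : ℝ) • (x - a) with hn
  have hn1 : ‖n‖ = 1 := by
    rw [hn, norm_smul, norm_inv, norm_norm, inv_mul_cancel₀ hpos.ne']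
  obtain ⟨t, t1, t2, ht⟩ := exists_nv hn1
  obtain ⟨p, hp, hxp⟩ := h1
  refine ⟨a, ha, t, t1, t2, ‖x - a‖, h2 a ha, (hle p hp).trans hxp, ?_, ?_⟩
  · rw [← ht, hn, smul_smul, mul_inv_cancel₀ hpos.ne', one_smul]
    abel
  · intro z hz
    rw [← ht, hn, real_inner_smul_right, real_inner_comm]
    exact mul_nonpos_of_nonneg_of_nonpos (by positivity) (hin z hz)

/-- No eight points in the annulus at mutual distances `≥ 2r`. -/
theorem core (hK : CW K) (x : Fin 8 → P) (h1 : ∀ i, ∃ p ∈ K, ‖x i - p‖ ≤ √3 / 3)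
    (h2 : ∀ i, ∀ p ∈ K, 1 - √3 / 3 ≤ ‖x i - p‖)
    (h3 : ∀ i j, i ≠ j → 2 * (1 - √3 / 3) ≤ ‖x i - x j‖) : False := by
  have hex := fun i => proj_data hK (h1 i) (h2 i)
  choose a ha t t1 t2 d hd hd' hx hs using hex
  set σ := Tuple.sort t with hσ
  have hmono : Monotone (t ∘ σ) := Tuple.monotone_sort t
  let idx : ℕ → Fin 8 := fun k => σ (Fin.ofNat 8 k)
  let T : ℕ → ℝ := fun k => t (idx k) + if k < 8 then 0 else 2 * π
  have hnv : ∀ k, nv (T k) = nv (t (idx k)) := by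
    intro k
    by_cases hk : k < 8
    · simp [T, hk]
    · simp only [T, hk, if_false]; exact nv_add_two_pi _
  refine core_seq hK (fun k => a (idx k)) (fun k => nv (T k)) (fun k => x (idx k)) T
    (fun k => d (idx k)) (fun k => ha _) (fun k => rfl) ?_ ?_ (fun k => hd _) (fun k => hd' _)
    ?_ ?_ ?_ ?_ ?_
  · intro k
    show x (idx k) = a (idx k) + d (idx k) • nv (T k)
    rw [hnv]; exact hx _
  · intro k z hz
    show inner ℝ (z - a (idx k)) (nv (T k)) ≤ (0 : ℝ)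
    rw [hnv]; exact hs _ z hz
  · intro k hk
    rcases Nat.lt_or_ge k 7 with h7 | h7
    · have hk1 : k + 1 < 8 := by omega
      have : t (idx k) ≤ t (idx (k + 1)) := by
        apply hmono
        rw [Fin.le_def]
        simp only [Fin.ofNat]
        rw [Nat.mod_eq_of_lt hk, Nat.mod_eq_of_lt hk1]
        omega
      simp only [T, hk, hk1, if_true]
      linarith
    · have : k = 7 := by omega
      subst this
      have e1 := t2 (idx 7)
      have e2 := t1 (idx 8)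
      simp only [T]
      norm_num
      linarith
  · show T 8 = T 0 + 2 * π
    have : idx 8 = idx 0 := rfl
    simp only [T, this]
    norm_num
  · show T 7 < T 0 + 2 * π
    have e1 := t2 (idx 7)
    have e2 := t1 (idx 0)
    simp only [T]
    norm_num
    linarith
  · rfl
  · intro k hk
    apply h3
    intro he
    have := σ.injective he
    simp only [Fin.ofNat, Fin.mk.injEq] at this
    omega

end Pool.Agent.H7.Kiss
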