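import Mathlib
import Pool.Agent.H7.Kiss.Points
import Pool.Agent.H7.Kiss.Jung

set_option autoImplicit false

namespace Pool.Agent.H7.Kiss

open Real

variable {K : Set P}

/-- A disc of radius `1 - R` about the centre lies in `K`, if `K` lies in the disc of radius
`R`. -/
lemma inball (hK : CW K) {c : P} {R : ℝ} (hc : ∀ p ∈ K, ‖c - p‖ ≤ R) {y : P}
    (hy : ‖y - c‖ ≤ 1 - R) : y ∈ K := by
  by_contra hyK
  obtain ⟨a, ha, hmin⟩ := exists_norm_eq_iInf_of_complete_convex hK.ne hK.cpt.isComplete hK.conv y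
  have hin := (norm_eq_iInf_iff_real_inner_le_zero hK.conv ha).1 hmin
  have hya : y - a ≠ 0 := by
    intro h0
    apply hyK
    rw [sub_eq_zero.1 h0]; exact ha
  have hpos : 0 < ‖y - a‖ := norm_pos_iff.2 hya
  set n : P := (‖y - a‖⁻¹ : ℝ) • (y - a) with hn
  have hn1 : ‖n‖ = 1 := by
    rw [hn, norm_smul, norm_inv, norm_norm, inv_mul_cancel₀ hpos.ne']
  obtain ⟨p, hp, q, hq, e, m1, m2⟩ := hK.wid n hn1
  have h1 : inner ℝ (p - a) n ≤ (0 : ℝ) := by
    rw [hn, real_inner_smul_right, real_inner_comm]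
    exact mul_nonpos_of_nonneg_of_nonpos (by positivity) (hin p hp)
  have h2 : inner ℝ (y - a) n = ‖y - a‖ := by
    rw [hn, real_inner_smul_right, real_inner_self_eq_norm_sq]
    field_simp
  have h3 : inner ℝ (y - q) n ≤ ‖y - q‖ * ‖n‖ := real_inner_le_norm _ _
  have h4 : ‖y - q‖ ≤ ‖y - c‖ + ‖c - q‖ := norm_sub_le_norm_sub_add_norm_sub _ _ _
  have h5 := hc q hq
  rw [hn1, mul_one] at h3
  rw [inner_sub_left] at e h1 h2 h3
  linarith

theorem no_eight (K : Set P) (hconv : Convex ℝ K) (hcpt : IsCompact K) (hne : K.Nonempty)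
    {w : ℝ} (hw : 0 < w) (hwid : ∀ u : P, ‖u‖ = 1 →
        sSup ((fun x => inner ℝ x u) '' K) - sInf ((fun x => inner ℝ x u) '' K) = w)
    (f : Fin 8 → (P ≃ᵢ P)) (h1 : ∀ i, ((f i) '' K ∩ K).Nonempty)
    (h2 : ∀ i, interior ((f i) '' K) ∩ interior K = ∅)
    (h3 : ∀ i j, i ≠ j → interior ((f i) '' K) ∩ interior ((f j) '' K) = ∅) : False := by
  have hwi : 0 < w⁻¹ := inv_pos.2 hw
  set K' : Set P := (fun z => w⁻¹ • z) '' K with hK'
  have hCW : CW K' := by
    refine ⟨hcpt.image (continuous_const_smul _), ?_, hne.image _, ?_⟩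
    · exact hconv.smul w⁻¹
    · intro u hu
      have hcont : ContinuousOn (fun x : P => (inner ℝ x u : ℝ)) K := by fun_prop
      obtain ⟨p, hp, hpm⟩ := hcpt.exists_isMaxOn hne hcont
      obtain ⟨q, hq, hqm⟩ := hcpt.exists_isMinOn hne hcont
      have e1 : sSup ((fun x => inner ℝ x u) '' K) = inner ℝ p u := by
        apply IsGreatest.csSup_eq
        exact ⟨⟨p, hp, rfl⟩, by rintro _ ⟨z, hz, rfl⟩; exact hpm hz⟩
      have e2 : sInf ((fun x => inner ℝ x u) '' K) = inner ℝ q u := by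
        apply IsLeast.csInf_eq
        exact ⟨⟨q, hq, rfl⟩, by rintro _ ⟨z, hz, rfl⟩; exact hqm hz⟩
      have e3 := hwid u hu
      rw [e1, e2] at e3
      refine ⟨w⁻¹ • p, ⟨p, hp, rfl⟩, w⁻¹ • q, ⟨q, hq, rfl⟩, ?_, ?_, ?_⟩
      · rw [← smul_sub, real_inner_smul_left, inner_sub_left, e3, inv_mul_cancel₀ hw.ne']
      · rintro _ ⟨z, hz, rfl⟩
        simp only
        rw [real_inner_smul_left, real_inner_smul_left]
        exact mul_le_mul_of_nonneg_left (hpm hz) hwi.le
      · rintro _ ⟨z, hz, rfl⟩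
        simp only
        rw [real_inner_smul_left, real_inner_smul_left]
        exact mul_le_mul_of_nonneg_left (hqm hz) hwi.le
  obtain ⟨c', hc'⟩ := jung hCW.ne (fun p hp q hq => hCW.diam hp hq)
  set c : P := w • c' with hc
  have hcc : w⁻¹ • c = c' := by rw [hc, smul_smul, inv_mul_cancel₀ hw.ne', one_smul]
  have hscale : ∀ v : P, ‖w⁻¹ • v‖ = w⁻¹ * ‖v‖ := fun v => by
    rw [norm_smul, Real.norm_eq_abs, abs_of_pos hwi]
  -- outer disc
  have hout : ∀ z ∈ K, w⁻¹ * ‖c - z‖ ≤ √3 / 3 := by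
    intro z hz
    rw [← hscale, smul_sub, hcc]
    exact hc' _ ⟨z, hz, rfl⟩
  -- inner disc
  have hinn : ∀ y, w⁻¹ * ‖y - c‖ ≤ 1 - √3 / 3 → y ∈ K := by
    intro y hy
    rw [← hscale, smul_sub, hcc] at hy
    obtain ⟨z, hz, he⟩ := inball hCW hc' hy
    have : z = y := by
      have := congrArg (fun v => w • v) he
      simpa [smul_smul, mul_inv_cancel₀ hw.ne'] using this
    rw [← this]; exact hz
  set r : ℝ := w * (1 - √3 / 3) with hr
  have h30 : √3 < 3 := by
    rw [Real.sqrt_lt' (by norm_num)]; norm_num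
  have hr0 : 0 < r := mul_pos hw (by linarith)
  have hball : ∀ i, Metric.ball (f i c) r ⊆ interior ((f i) '' K) := by
    intro i
    apply interior_maximal _ Metric.isOpen_ball
    intro y hy
    refine ⟨(f i).symm y, ?_, (f i).apply_symm_apply y⟩
    apply hinn
    rw [Metric.mem_ball] at hy
    have e1 : ‖(f i).symm y - c‖ = dist y (f i c) := by
      rw [← dist_eq_norm, ← (f i).dist_eq ((f i).symm y) c, (f i).apply_symm_apply]
    rw [e1]
    have : w⁻¹ * dist y (f i c) ≤ w⁻¹ * r := mul_le_mul_of_nonneg_left hy.le hwi.le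
    rw [hr, ← mul_assoc, inv_mul_cancel₀ hw.ne', one_mul] at this
    exact this
  have hball0 : Metric.ball c r ⊆ interior K := by
    apply interior_maximal _ Metric.isOpen_ball
    intro y hy
    apply hinn
    rw [Metric.mem_ball, dist_eq_norm] at hy
    have : w⁻¹ * ‖y - c‖ ≤ w⁻¹ * r := mul_le_mul_of_nonneg_left hy.le hwi.le
    rw [hr, ← mul_assoc, inv_mul_cancel₀ hw.ne', one_mul] at this
    exact this
  have hint : (interior K).Nonempty := ⟨c, hball0 (Metric.mem_ball_self hr0)⟩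
  have hcl : K ⊆ closure (interior K) := by
    rw [hconv.closure_interior_eq_closure_of_nonempty_interior hint]
    exact subset_closure
  refine core hCW (fun i => w⁻¹ • f i c) ?_ ?_ ?_
  · intro i
    obtain ⟨p, ⟨z, hz, hzp⟩, hp⟩ := h1 i
    refine ⟨w⁻¹ • p, ⟨p, hp, rfl⟩, ?_⟩
    rw [← smul_sub, hscale, ← hzp, ← dist_eq_norm, (f i).dist_eq, dist_eq_norm]
    exact hout z hz
  · rintro i _ ⟨p, hp, rfl⟩
    simp only
    rw [← smul_sub, hscale]
    by_contra hlt
    push Not at hlt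
    have hlt2 : ‖f i c - p‖ < r := by
      have := mul_lt_mul_of_pos_left hlt hw
      rw [← mul_assoc, mul_inv_cancel₀ hw.ne', one_mul] at this
      exact this
    have hmem : p ∈ Metric.ball (f i c) r := by
      rw [Metric.mem_ball, dist_comm, dist_eq_norm]; exact hlt2
    obtain ⟨y, hy1, hy2⟩ := mem_closure_iff.1 (hcl hp) _ Metric.isOpen_ball hmem
    have : y ∈ interior ((f i) '' K) ∩ interior K := ⟨hball i hy1, hy2⟩
    rw [h2 i] at this
    exact this
  · intro i j hij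
    show 2 * (1 - √3 / 3) ≤ ‖w⁻¹ • f i c - w⁻¹ • f j c‖
    rw [← smul_sub, hscale]
    by_contra hlt
    push Not at hlt
    have hlt2 : ‖f i c - f j c‖ < 2 * r := by
      have := mul_lt_mul_of_pos_left hlt hw
      rw [← mul_assoc, mul_inv_cancel₀ hw.ne', one_mul] at this
      rw [hr]; linarith
    have hm1 : midpoint ℝ (f i c) (f j c) ∈ Metric.ball (f i c) r := by
      rw [Metric.mem_ball, dist_midpoint_left, Real.norm_eq_abs, dist_eq_norm]
      norm_num
      linarith
    have hm2 : midpoint ℝ (f i c) (f j c) ∈ Metric.ball (f j c) r := by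
      rw [Metric.mem_ball, dist_midpoint_right, Real.norm_eq_abs, dist_eq_norm]
      norm_num
      linarith
    have : midpoint ℝ (f i c) (f j c) ∈ interior ((f i) '' K) ∩ interior ((f j) '' K) :=
      ⟨hball i hm1, hball j hm2⟩
    rw [h3 i j hij] at this
    exact this

end Pool.Agent.H7.Kiss
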