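import Mathlib
import Pool.Agent.H7.Kiss.Final

set_option autoImplicit false

namespace Pool.Agent.H7.Kiss

open Real

lemma toCW {K : Set P} (hconv : Convex ℝ K) (hcpt : IsCompact K) (hne : K.Nonempty)
    {w : ℝ} (hw : 0 < w) (hwid : ∀ u : P, ‖u‖ = 1 →
        sSup ((fun x => inner ℝ x u) '' K) - sInf ((fun x => inner ℝ x u) '' K) = w) :
    CW ((fun z => w⁻¹ • z) '' K) := by
  have hwi : 0 < w⁻¹ := inv_pos.2 hw
  refine ⟨hcpt.image (continuous_const_smul _), ?_, hne.image _, ?_⟩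
  · exact hconv.smul w⁻¹
  · intro u hu
    have hcont : ContinuousOn (fun x : P => (inner ℝ x u : ℝ)) K := by fun_prop
    obtain ⟨p, hp, hpm⟩ := hcpt.exists_isMaxOn hne hcont
    obtain ⟨q, hq, hqm⟩ := hcpt.exists_isMinOn hne hcont
    have e1 : sSup ((fun x => inner ℝ x u) '' K) = inner ℝ p u := by
      apply IsGreatest.csSup_eq
      exact ⟨⟨p, hp, rfl⟩, by rintro _ ⟨z, hz, rfl⟩; exact hpm hz⟩
    have e2 : sInf ((fun x => inner ℝ x u) '' K) = inner ℝ q u := by
      apply IsLeast.csInf_eq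
      exact ⟨⟨q, hq, rfl⟩, by rintro _ ⟨z, hz, rfl⟩; exact hqm hz⟩
    have e3 := hwid u hu
    rw [e1, e2] at e3
    refine ⟨w⁻¹ • p, ⟨p, hp, rfl⟩, w⁻¹ • q, ⟨q, hq, rfl⟩, ?_, ?_, ?_⟩
    · rw [← smul_sub, real_inner_smul_left, inner_sub_left, e3, inv_mul_cancel₀ hw.ne']
    · rintro _ ⟨z, hz, rfl⟩
      simp only
      rw [real_inner_smul_left, real_inner_smul_left]
      exact mul_le_mul_of_nonneg_left (hpm hz) hwi.le
    · rintro _ ⟨z, hz, rfl⟩
      simp only
      rw [real_inner_smul_left, real_inner_smul_left]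
      exact mul_le_mul_of_nonneg_left (hqm hz) hwi.le

/-- Every set of constant width `w` has a centre. -/
lemma centre {K : Set P} (hconv : Convex ℝ K) (hcpt : IsCompact K) (hne : K.Nonempty)
    {w : ℝ} (hw : 0 < w) (hwid : ∀ u : P, ‖u‖ = 1 →
        sSup ((fun x => inner ℝ x u) '' K) - sInf ((fun x => inner ℝ x u) '' K) = w) :
    ∃ c : P, (∀ z ∈ K, w⁻¹ * ‖c - z‖ ≤ √3 / 3) ∧
      Metric.ball c (w * (1 - √3 / 3)) ⊆ interior K := by
  have hwi : 0 < w⁻¹ := inv_pos.2 hw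
  have hCW := toCW hconv hcpt hne hw hwid
  obtain ⟨c', hc'⟩ := jung hCW.ne (fun p hp q hq => hCW.diam hp hq)
  set c : P := w • c' with hc
  have hcc : w⁻¹ • c = c' := by rw [hc, smul_smul, inv_mul_cancel₀ hw.ne', one_smul]
  have hscale : ∀ v : P, ‖w⁻¹ • v‖ = w⁻¹ * ‖v‖ := fun v => by
    rw [norm_smul, Real.norm_eq_abs, abs_of_pos hwi]
  refine ⟨c, ?_, ?_⟩
  · intro z hz
    rw [← hscale, smul_sub, hcc]
    exact hc' _ ⟨z, hz, rfl⟩
  · apply interior_maximal _ Metric.isOpen_ball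
    intro y hy
    rw [Metric.mem_ball, dist_eq_norm] at hy
    have hle : w⁻¹ * ‖y - c‖ ≤ 1 - √3 / 3 := by
      have : w⁻¹ * ‖y - c‖ ≤ w⁻¹ * (w * (1 - √3 / 3)) := mul_le_mul_of_nonneg_left hy.le hwi.le
      rw [← mul_assoc, inv_mul_cancel₀ hw.ne', one_mul] at this
      exact this
    rw [← hscale, smul_sub, hcc] at hle
    obtain ⟨z, hz, he⟩ := inball hCW hc' hle
    have : z = y := by
      have := congrArg (fun v => w • v) he
      simpa [smul_smul, mul_inv_cancel₀ hw.ne'] using this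
    rw [← this]; exact hz

theorem no_eight_mixed {w : ℝ} (hw : 0 < w) (K : Set P) (L : Fin 8 → Set P)
    (hconv : Convex ℝ K) (hcpt : IsCompact K) (hne : K.Nonempty)
    (hwid : ∀ u : P, ‖u‖ = 1 →
        sSup ((fun x => inner ℝ x u) '' K) - sInf ((fun x => inner ℝ x u) '' K) = w)
    (Lconv : ∀ i, Convex ℝ (L i)) (Lcpt : ∀ i, IsCompact (L i))
    (Lwid : ∀ i, ∀ u : P, ‖u‖ = 1 →
        sSup ((fun x => inner ℝ x u) '' L i) - sInf ((fun x => inner ℝ x u) '' L i) = w)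
    (h1 : ∀ i, (L i ∩ K).Nonempty)
    (h2 : ∀ i, interior (L i) ∩ interior K = ∅)
    (h3 : ∀ i j, i ≠ j → interior (L i) ∩ interior (L j) = ∅) : False := by
  have hwi : 0 < w⁻¹ := inv_pos.2 hw
  have hCW := toCW hconv hcpt hne hw hwid
  have hscale : ∀ v : P, ‖w⁻¹ • v‖ = w⁻¹ * ‖v‖ := fun v => by
    rw [norm_smul, Real.norm_eq_abs, abs_of_pos hwi]
  have h30 : √3 < 3 := by
    rw [Real.sqrt_lt' (by norm_num)]; norm_num
  obtain ⟨c0, -, hball0⟩ := centre hconv hcpt hne hw hwid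
  have hex : ∀ i, ∃ c : P, (∀ z ∈ L i, w⁻¹ * ‖c - z‖ ≤ √3 / 3) ∧
      Metric.ball c (w * (1 - √3 / 3)) ⊆ interior (L i) := fun i =>
    centre (Lconv i) (Lcpt i) ((h1 i).mono Set.inter_subset_left) hw (Lwid i)
  choose c hout hball using hex
  set r : ℝ := w * (1 - √3 / 3) with hr
  have hr0 : 0 < r := mul_pos hw (by linarith)
  have hint : (interior K).Nonempty := ⟨c0, hball0 (Metric.mem_ball_self hr0)⟩
  have hcl : K ⊆ closure (interior K) := by
    rw [hconv.closure_interior_eq_closure_of_nonempty_interior hint]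
    exact subset_closure
  refine core hCW (fun i => w⁻¹ • c i) ?_ ?_ ?_
  · intro i
    obtain ⟨p, hpL, hp⟩ := h1 i
    refine ⟨w⁻¹ • p, ⟨p, hp, rfl⟩, ?_⟩
    rw [← smul_sub, hscale]
    exact hout i p hpL
  · rintro i _ ⟨p, hp, rfl⟩
    simp only
    rw [← smul_sub, hscale]
    by_contra hlt
    push Not at hlt
    have hlt2 : ‖c i - p‖ < r := by
      have := mul_lt_mul_of_pos_left hlt hw
      rw [← mul_assoc, mul_inv_cancel₀ hw.ne', one_mul] at this
      exact this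
    have hmem : p ∈ Metric.ball (c i) r := by
      rw [Metric.mem_ball, dist_comm, dist_eq_norm]; exact hlt2
    obtain ⟨y, hy1, hy2⟩ := mem_closure_iff.1 (hcl hp) _ Metric.isOpen_ball hmem
    have : y ∈ interior (L i) ∩ interior K := ⟨hball i hy1, hy2⟩
    rw [h2 i] at this
    exact this
  · intro i j hij
    show 2 * (1 - √3 / 3) ≤ ‖w⁻¹ • c i - w⁻¹ • c j‖
    rw [← smul_sub, hscale]
    by_contra hlt
    push Not at hlt
    have hlt2 : ‖c i - c j‖ < 2 * r := by
      have := mul_lt_mul_of_pos_left hlt hw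
      rw [← mul_assoc, mul_inv_cancel₀ hw.ne', one_mul] at this
      rw [hr]; linarith
    have hm1 : midpoint ℝ (c i) (c j) ∈ Metric.ball (c i) r := by
      rw [Metric.mem_ball, dist_midpoint_left, Real.norm_eq_abs, dist_eq_norm]
      norm_num
      linarith
    have hm2 : midpoint ℝ (c i) (c j) ∈ Metric.ball (c j) r := by
      rw [Metric.mem_ball, dist_midpoint_right, Real.norm_eq_abs, dist_eq_norm]
      norm_num
      linarith
    have : midpoint ℝ (c i) (c j) ∈ interior (L i) ∩ interior (L j) :=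
      ⟨hball i hm1, hball j hm2⟩
    rw [h3 i j hij] at this
    exact this

end Pool.Agent.H7.Kiss
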